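import Mathlib

set_option autoImplicit false

namespace Pool.Agent.Results.MP_451208_an.NotSurjunctive

open Set Filter Topology

/-- the shift. -/
def shift {A : Type} (x : ℤ → A) : ℤ → A := fun n => x (n + 1)

abbrev A0 : Type := Fin 3 → Bool

def X0 : Set (ℤ → A0) :=
  {x | ∀ k t : ℤ, 0 ≤ t → x (k - t) 0 = true → x k 1 = true → x (k + t) 2 = true → False}

def τ0 (x : ℤ → A0) : ℤ → A0 := fun n i => x (n + (i : ℕ) - 1) i

lemma iter (m : ℕ) (x : ℤ → A0) (n : ℤ) : shift^[m] x n = x (n + m) := by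
  induction m generalizing n with
  | zero => simp
  | succ m ih =>
    rw [Function.iterate_succ_apply']
    change shift^[m] x (n + 1) = _
    rw [ih]; congr 1; push_cast; ring

lemma cyl {U : Set (ℤ → A0)} {x : ℤ → A0} (hU : U ∈ 𝓝 x) :
    ∃ m : ℕ, ∀ y : ℤ → A0, (∀ i : ℤ, |i| ≤ m → y i = x i) → y ∈ U := by
  rw [nhds_pi, mem_pi'] at hU
  obtain ⟨W, s, hs, h⟩ := hU
  refine ⟨W.sup Int.natAbs, fun y hy => h fun t ht => ?_⟩
  rw [hy t (by
    have := Finset.le_sup (f := Int.natAbs) ht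
    rw [Int.abs_eq_natAbs]; exact_mod_cast this)]
  exact mem_of_mem_nhds (hs t)

theorem result : ∃ (X : Set (ℤ → Fin 3 → Bool)) (τ : (ℤ → Fin 3 → Bool) → ℤ → Fin 3 → Bool),
    IsClosed X ∧ shift '' X = X ∧
    (∀ U V : Set (ℤ → Fin 3 → Bool), IsOpen U → IsOpen V → (U ∩ X).Nonempty → (V ∩ X).Nonempty →
      ∃ N : ℕ, ∀ n, N ≤ n → (shift^[n] '' (U ∩ X) ∩ V).Nonempty) ∧
    ContinuousOn τ X ∧ MapsTo τ X X ∧ (∀ x ∈ X, τ (shift x) = shift (τ x)) ∧ InjOn τ X ∧
    τ '' X ≠ X := by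
  have hsh : ∀ (s : ℤ), ∀ x ∈ X0, (fun n => x (n + s)) ∈ X0 := by
    intro s x hx k t ht h0 h1 h2
    refine hx (k + s) t ht ?_ h1 ?_
    · rw [← h0]; congr 1; ring
    · rw [← h2]; congr 1; ring
  refine ⟨X0, τ0, ?_, ?_, ?_, ?_, ?_, fun x _ => ?_, fun x _ y _ h => ?_, fun h => ?_⟩
  · have : X0 = ⋂ k : ℤ, ⋂ t : ℤ, (fun x : ℤ → A0 => (x (k - t) 0, x k 1, x (k + t) 2)) ⁻¹'
        {q | 0 ≤ t → q.1 = true → q.2.1 = true → q.2.2 = true → False} := by
      ext x; simp only [X0, mem_setOf_eq, mem_iInter, mem_preimage]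
    rw [this]
    exact isClosed_iInter fun k => isClosed_iInter fun t =>
      (isClosed_discrete _).preimage (by fun_prop)
  · refine Subset.antisymm ?_ fun x hx => ⟨_, hsh (-1) x hx, ?_⟩
    · rintro _ ⟨x, hx, rfl⟩
      exact hsh 1 x hx
    · funext n; simp [shift]
  · rintro U V hU hV ⟨x, hx, hx'⟩ ⟨y, hy, hy'⟩
    obtain ⟨m1, h1⟩ := cyl (hU.mem_nhds hx)
    obtain ⟨m2, h2⟩ := cyl (hV.mem_nhds hy)
    refine ⟨4 * (m1 + m2) + 1, fun n hn => ⟨_, ⟨fun i => if |i| ≤ m1 then x i else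
      if |i - n| ≤ m2 then y (i - n) else fun _ => false,
      ⟨h1 _ fun i hi => by simp [hi], fun k t ht a0 a1 a2 => ?_⟩, rfl⟩, h2 _ fun i hi => ?_⟩⟩
    · have hn' : (4 * (m1 + m2) + 1 : ℤ) ≤ n := by exact_mod_cast hn
      simp only [abs_le] at a0 a1 a2
      split_ifs at a0 a1 a2 <;> first
        | omega
        | exact hx' k t ht a0 a1 a2
        | exact hy' (k - n) t ht (by rw [← a0]; congr 1; ring) a1 (by rw [← a2]; congr 1; ring)
    · rw [iter]
      have hn' : (4 * (m1 + m2) + 1 : ℤ) ≤ n := by exact_mod_cast hn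
      have a1 : ¬ |i + n| ≤ m1 := by rw [abs_le] at hi ⊢; omega
      simp [a1, hi]
  · refine Continuous.continuousOn ?_
    unfold τ0
    fun_prop
  · intro x hx k t ht h0 h1 h2
    refine hx k (t + 1) (by omega) ?_ ?_ ?_
    · rw [← h0]; simp only [τ0]; congr 1; simp; ring
    · rw [← h1]; simp [τ0]
    · rw [← h2]; simp only [τ0]; congr 1; simp; ring
  · funext n i
    simp only [τ0, shift]; congr 1; ring
  · funext n i
    have := congrFun (congrFun h (n - (i : ℕ) + 1)) i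
    simp only [τ0] at this
    have e : n - (i : ℕ) + 1 + (i : ℕ) - 1 = n := by ring
    rwa [e] at this
  · have h1 : (fun (n : ℤ) (i : Fin 3) => decide (n + (i : ℕ) - 1 = 0)) ∈ X0 := by
      intro k t ht h0 h1 h2
      simp at h0 h1 h2
      omega
    rw [← h] at h1
    obtain ⟨x, hx, e⟩ := h1
    have a0 := congrFun (congrFun e 1) 0
    have a1 := congrFun (congrFun e 0) 1
    have a2 := congrFun (congrFun e (-1)) 2
    simp [τ0] at a0 a1 a2
    exact hx 0 0 le_rfl (by simpa using a0) a1 (by simpa using a2)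

end Pool.Agent.Results.MP_451208_an.NotSurjunctive
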